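import Pool.Agent.Helper23.CC.Spec

/-!
The first-order expansion of the universal forms.
-/

set_option autoImplicit false

namespace Pool.Agent.Helper15.CC

open MvPolynomial Pool.Agent.Helper23.CC

/-- `F = F0 + ε F1` -/
def Ex {K : Type} [Field K] {ι : Type} (F : MvPolynomial ι (DualNumber K))
    (F0 F1 : MvPolynomial ι K) : Prop :=
  F = map (TrivSqZeroExt.inlHom K K) F0 +
    C (TrivSqZeroExt.inr (1 : K)) * map (TrivSqZeroExt.inlHom K K) F1

section

variable {K : Type} [Field K] {ι : Type}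

theorem eps_sq : (C (TrivSqZeroExt.inr (1 : K)) : MvPolynomial ι (DualNumber K)) *
    C (TrivSqZeroExt.inr (1 : K)) = 0 := by
  rw [← C_mul, TrivSqZeroExt.inr_mul_inr, C_0]

theorem Ex.add {F G : MvPolynomial ι (DualNumber K)} {F0 F1 G0 G1 : MvPolynomial ι K}
    (hF : Ex F F0 F1) (hG : Ex G G0 G1) : Ex (F + G) (F0 + G0) (F1 + G1) := by
  unfold Ex at *
  rw [hF, hG]
  simp only [map_add]
  ring

theorem Ex.sub {F G : MvPolynomial ι (DualNumber K)} {F0 F1 G0 G1 : MvPolynomial ι K}
    (hF : Ex F F0 F1) (hG : Ex G G0 G1) : Ex (F - G) (F0 - G0) (F1 - G1) := by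
  unfold Ex at *
  rw [hF, hG]
  simp only [map_sub]
  ring

theorem Ex.mul {F G : MvPolynomial ι (DualNumber K)} {F0 F1 G0 G1 : MvPolynomial ι K}
    (hF : Ex F F0 F1) (hG : Ex G G0 G1) : Ex (F * G) (F0 * G0) (F0 * G1 + F1 * G0) := by
  unfold Ex at *
  rw [hF, hG]
  simp only [map_add, map_mul]
  have h := eps_sq (K := K) (ι := ι)
  generalize (C (TrivSqZeroExt.inr (1 : K)) : MvPolynomial ι (DualNumber K)) = e at *
  linear_combination (map (TrivSqZeroExt.inlHom K K) F1 * map (TrivSqZeroExt.inlHom K K) G1) * h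

theorem Ex.zero : Ex (0 : MvPolynomial ι (DualNumber K)) 0 0 := by
  unfold Ex; simp

theorem Ex.one : Ex (1 : MvPolynomial ι (DualNumber K)) 1 0 := by
  unfold Ex; simp

theorem Ex.X (i : ι) : Ex (X i : MvPolynomial ι (DualNumber K)) (X i) 0 := by
  unfold Ex; simp

theorem Ex.sum {α : Type} (s : Finset α) {F : α → MvPolynomial ι (DualNumber K)}
    {F0 F1 : α → MvPolynomial ι K} (h : ∀ a ∈ s, Ex (F a) (F0 a) (F1 a)) :
    Ex (∑ a ∈ s, F a) (∑ a ∈ s, F0 a) (∑ a ∈ s, F1 a) := by
  classical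
  induction s using Finset.induction_on with
  | empty => simpa using Ex.zero
  | insert a s ha ih =>
    rw [Finset.sum_insert ha, Finset.sum_insert ha, Finset.sum_insert ha]
    exact (h a (Finset.mem_insert_self _ _)).add
      (ih fun b hb => h b (Finset.mem_insert_of_mem hb))

theorem Ex.pow {F : MvPolynomial ι (DualNumber K)} {F0 F1 : MvPolynomial ι K}
    (hF : Ex F F0 F1) (n : ℕ) : Ex (F ^ n) (F0 ^ n) ((n : MvPolynomial ι K) *
      (F1 * F0 ^ (n - 1))) := by
  induction n with
  | zero => simpa using Ex.one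
  | succ n ih =>
    have h := ih.mul hF
    rw [pow_succ F, pow_succ F0]
    convert h using 1
    rcases n with _ | n
    · simp
    · simp only [Nat.add_sub_cancel, Nat.cast_add, Nat.cast_one]
      ring

theorem Ex.prod {α : Type} [DecidableEq α] (s : Finset α)
    {F : α → MvPolynomial ι (DualNumber K)}
    {F0 F1 : α → MvPolynomial ι K} (h : ∀ a ∈ s, Ex (F a) (F0 a) (F1 a)) :
    Ex (∏ a ∈ s, F a) (∏ a ∈ s, F0 a) (∑ a ∈ s, F1 a * ∏ u ∈ s.erase a, F0 u) := by
  induction s using Finset.induction_on with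
  | empty => simpa using Ex.one
  | insert a s ha ih =>
    have h1 := (h a (Finset.mem_insert_self _ _)).mul
      (ih fun b hb => h b (Finset.mem_insert_of_mem hb))
    rw [Finset.prod_insert ha, Finset.prod_insert ha, Finset.sum_insert ha,
      Finset.erase_insert ha]
    convert h1 using 1
    rw [add_comm]
    congr 1
    rw [Finset.mul_sum]
    refine Finset.sum_congr rfl fun b hb => ?_
    have hba : b ≠ a := fun hba => ha (hba ▸ hb)
    rw [Finset.erase_insert_of_ne hba.symm, Finset.prod_insert]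
    · ring
    · intro h2
      exact ha (Finset.mem_of_mem_erase h2)

theorem Ex.coeff {F : MvPolynomial ι (DualNumber K)} {F0 F1 : MvPolynomial ι K}
    (hF : Ex F F0 F1) (I : ι →₀ ℕ) :
    TrivSqZeroExt.snd (MvPolynomial.coeff I F) = MvPolynomial.coeff I F1 := by
  unfold Ex at hF
  rw [hF, coeff_add, coeff_map, coeff_C_mul, coeff_map]
  simp

theorem dual_eq (a b : K) : (TrivSqZeroExt.inl a + TrivSqZeroExt.inr b : DualNumber K) =
    TrivSqZeroExt.inlHom K K a + TrivSqZeroExt.inr (1 : K) * TrivSqZeroExt.inlHom K K b := by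
  ext <;> simp

theorem Ex.lf {N : ℕ} (al be al' be' : K) :
    Ex (lf (TrivSqZeroExt.inl al + TrivSqZeroExt.inr al')
      (TrivSqZeroExt.inl be + TrivSqZeroExt.inr be') :
      MvPolynomial (Fin (N + 2)) (DualNumber K)) (lf al be) (lf al' be') := by
  unfold Ex Helper23.CC.lf
  rw [dual_eq, dual_eq]
  simp only [map_add, map_mul, map_C, map_X, C_add, C_mul]
  ring

theorem Ex.cof {N : ℕ} {A : Type} (d : A → ℕ) (b b' : A × Fin N × (Fin (N + 2) →₀ ℕ) → K)
    (a : A) (j : Fin N) :
    Ex (cof d (fun t => (TrivSqZeroExt.inl (b t) + TrivSqZeroExt.inr (b' t) : DualNumber K)) a j)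
      (cof d b a j) (cof d b' a j) := by
  unfold Helper23.CC.cof
  refine Ex.sum _ fun I _ => ?_
  unfold Ex
  beta_reduce
  rw [dual_eq, map_monomial, map_monomial, C_mul_monomial, ← map_add]

end

theorem dual' : St_DUAL := by
  intro K _ N A σ _ _ _ d Z own mult x v a I
  refine Ex.coeff (F0 := FF d Z own mult x a) ?_ I
  unfold FF dFF dual
  refine Ex.add ?_ ?_
  · unfold top dtop
    split_ifs
    · exact Ex.zero
    · have := Ex.prod (K := K) (ι := Fin (N + 2)) (Finset.univ.filter fun s => own s = a)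
        (F := fun s => lf (TrivSqZeroExt.inl (x (.inr (.inl (.inl s)))) +
          TrivSqZeroExt.inr (v (.inr (.inl (.inl s)))))
          (TrivSqZeroExt.inl (x (.inr (.inl (.inr s)))) +
          TrivSqZeroExt.inr (v (.inr (.inl (.inr s))))) ^ mult s)
        (fun s _ => (Ex.lf _ _ _ _).pow _)
      exact this
  · refine Ex.sum _ fun j _ => ?_
    have h1 := ((Ex.X (K := K) (j.succ.succ : Fin (N + 2))).sub
      (Ex.lf (N := N) (x (.inl (.inl j))) (x (.inl (.inr j))) (v (.inl (.inl j)))
        (v (.inl (.inr j))))).mul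
      (Ex.cof d (fun y => x (.inr (.inr y))) (fun y => v (.inr (.inr y))) a j)
    rw [zero_sub, neg_mul, ← sub_eq_add_neg] at h1
    exact h1

end Pool.Agent.Helper15.CC
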