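import Pool.Agent.Helper23.CC.Spec

/-!
Algebraic independence of the coefficients of the universal forms.
-/

set_option autoImplicit false

namespace Pool.Agent.Helper15.CC

open MvPolynomial Pool.Agent.Helper23.CC

theorem finite_deg (n d : ℕ) : Finite {I : Fin n →₀ ℕ // I.degree = d} := by
  have h : Set.Finite {I : Fin n →₀ ℕ | I.degree = d} := by
    refine (Finset.finite_toSet
      (Finset.finsuppAntidiag (Finset.univ : Finset (Fin n)) d)).subset fun I hI => ?_
    rw [Set.mem_ofPred_eq] at hI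
    rw [Finset.mem_coe, Finset.mem_finsuppAntidiag]
    refine ⟨?_, Finset.subset_univ _⟩
    rw [← hI, Finsupp.degree_eq_sum]
  exact h.to_subtype

theorem gen (h1 : St_JAC) (h2 : St_NAT) (h3 : St_DUAL) (h4 : St_SURJ) : St_GEN := by
  classical
  intro K _ _ N A σ _ _ _ _ d Z own mult hd hm hZ hle
  have : ∀ a : A, Finite {I : Fin (N + 2) →₀ ℕ // I.degree = d a} := fun a => finite_deg _ _
  haveI : Fintype ((a : A) × {I : Fin (N + 2) →₀ ℕ // I.degree = d a}) := Fintype.ofFinite _
  obtain ⟨x, hx⟩ := h4 K N A σ d Z own mult hd hm hZ hle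
  have hv : ∀ i : (a : A) × {I : Fin (N + 2) →₀ ℕ // I.degree = d a},
      ∃ v : Tau N A σ → K, ∀ a, dFF d Z own mult x v a =
        if a = i.1 then monomial i.2.1 1 else 0 := by
    intro i
    refine hx _ fun a => ?_
    split_ifs with ha
    · subst ha
      apply isHomogeneous_monomial
      exact i.2.2
    · exact isHomogeneous_zero _ _ _
  choose v hv using hv
  refine h1 K _ (Tau N A σ) _ x v ?_
  intro i i'
  have e1 : aeval (dual x (v i)) (coeff i'.2.1
      (FF d Z own mult (fun t => (X t : MvPolynomial (Tau N A σ) K)) i'.1)) =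
      coeff i'.2.1 (FF d Z own mult (dual x (v i)) i'.1) := by
    have e2 := (h2 N A σ d Z own mult).1 (MvPolynomial (Tau N A σ) K) (DualNumber K)
      (aeval (dual x (v i)) : MvPolynomial (Tau N A σ) K →ₐ[K] DualNumber K).toRingHom
      (fun t => X t) i'.1
    have e3 := congrArg (coeff i'.2.1) e2
    rw [coeff_map] at e3
    refine e3.trans ?_
    congr 2
    funext t
    exact aeval_X _ _
  rw [e1, h3 K N A σ d Z own mult x (v i) i'.1 i'.2.1, hv i i'.1]
  obtain ⟨a', I', hI'⟩ := i'
  obtain ⟨a, I, hI⟩ := i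
  by_cases ha : a' = a
  · subst ha
    by_cases hII : I' = I
    · subst hII
      simp
    · have h5 : (⟨a', ⟨I', hI'⟩⟩ : (a : A) × {I : Fin (N + 2) →₀ ℕ // I.degree = d a}) ≠
          ⟨a', ⟨I, hI⟩⟩ := by
        intro h
        simp only [Sigma.mk.injEq, heq_eq_eq, Subtype.mk.injEq, true_and] at h
        exact hII h
      rw [if_neg h5, if_pos rfl, coeff_monomial, if_neg (fun h => hII h.symm)]
  · have h5 : (⟨a', ⟨I', hI'⟩⟩ : (a : A) × {I : Fin (N + 2) →₀ ℕ // I.degree = d a}) ≠
          ⟨a, ⟨I, hI⟩⟩ := by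
      intro h
      exact ha (congrArg Sigma.fst h)
    rw [if_neg h5, if_neg ha, coeff_zero]

end Pool.Agent.Helper15.CC
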