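import Pool.Agent.Helper23.CC.Spec

/-!
Base change, homogeneity and restriction to the line of the universal forms.
-/

set_option autoImplicit false

namespace Pool.Agent.Helper15.CC

open MvPolynomial Pool.Agent.Helper23.CC

theorem map_lf {R R' : Type} [CommRing R] [CommRing R'] (φ : R →+* R') {N : ℕ} (al be : R) :
    map φ (lf al be : MvPolynomial (Fin (N + 2)) R) = lf (φ al) (φ be) := by
  simp [lf]

theorem map_cof {R R' : Type} [CommRing R] [CommRing R'] (φ : R →+* R') {N : ℕ} {A : Type}
    (d : A → ℕ) (b : A × Fin N × (Fin (N + 2) →₀ ℕ) → R) (a : A) (j : Fin N) :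
    map φ (cof d b a j) = cof d (fun x => φ (b x)) a j := by
  simp only [cof, map_sum, map_monomial]

theorem eval_lf {R : Type} [CommRing R] {N : ℕ} (al be : R) (z : Fin (N + 2) → R) :
    eval z (lf al be) = al * z 0 + be * z 1 := by
  simp [lf]

theorem lf_hom {R : Type} [CommRing R] {N : ℕ} (al be : R) :
    (lf al be : MvPolynomial (Fin (N + 2)) R).IsHomogeneous 1 := by
  unfold lf
  have h0 : (C al * X 0 : MvPolynomial (Fin (N + 2)) R).IsHomogeneous (0 + 1) :=
    (isHomogeneous_C _ _).mul (isHomogeneous_X _ _)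
  have h1 : (C be * X 1 : MvPolynomial (Fin (N + 2)) R).IsHomogeneous (0 + 1) :=
    (isHomogeneous_C _ _).mul (isHomogeneous_X _ _)
  exact h0.add h1

theorem cof_hom {R : Type} [CommRing R] {N : ℕ} {A : Type}
    (d : A → ℕ) (b : A × Fin N × (Fin (N + 2) →₀ ℕ) → R) (a : A) (j : Fin N) :
    (cof d b a j).IsHomogeneous (d a - 1) := by
  unfold cof
  refine IsHomogeneous.sum _ _ _ fun I hI => ?_
  apply isHomogeneous_monomial
  rw [Finset.mem_finsuppAntidiag] at hI
  rw [Finsupp.degree_eq_sum]
  exact hI.1

theorem nat : St_NAT := by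
  intro N A σ _ _ d Z own mult
  refine ⟨?_, ?_, ?_⟩
  · intro R R' _ _ φ π a
    unfold FF top
    rw [map_add, map_sum]
    congr 1
    · split_ifs
      · rw [map_zero]
      · rw [map_prod]
        refine Finset.prod_congr rfl fun s _ => ?_
        rw [map_pow, map_lf]
    · refine Finset.sum_congr rfl fun j _ => ?_
      rw [map_mul, map_sub, map_lf, map_cof, map_X]
  · intro R _ π a x y
    have h0 : x * Helper23.CC.lp π 0 + y * lq π 0 = x := by simp [Helper23.CC.lp, lq]
    have h1 : x * Helper23.CC.lp π 1 + y * lq π 1 = y := by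
      have e1 : Helper23.CC.lp π 1 = 0 := by
        unfold Helper23.CC.lp
        rw [← Fin.succ_zero_eq_one, Fin.cons_succ, Fin.cons_zero]
      have e2 : lq π 1 = 1 := by
        unfold lq
        rw [← Fin.succ_zero_eq_one, Fin.cons_succ, Fin.cons_zero]
      rw [e1, e2]; ring
    have h2 : ∀ j : Fin N, x * Helper23.CC.lp π j.succ.succ + y * lq π j.succ.succ =
        x * π (.inl (.inl j)) + y * π (.inl (.inr j)) := by
      intro j; simp [Helper23.CC.lp, lq]
    unfold FF top
    rw [map_add, map_sum]
    have e1 : ∑ j : Fin N, eval (fun l => x * Helper23.CC.lp π l + y * lq π l)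
        ((X j.succ.succ - lf (π (.inl (.inl j))) (π (.inl (.inr j)))) *
          cof d (fun x => π (.inr (.inr x))) a j) = 0 := by
      refine Finset.sum_eq_zero fun j _ => ?_
      rw [map_mul, map_sub, eval_lf, eval_X, h0, h1, h2]
      ring
    rw [e1, add_zero]
    split_ifs
    · rw [map_zero]
    · rw [map_prod]
      refine Finset.prod_congr rfl fun s _ => ?_
      rw [map_pow, eval_lf, h0, h1]
  · intro hd hZ R _ π a
    unfold FF top
    refine IsHomogeneous.add ?_ ?_
    · split_ifs with ha
      · exact isHomogeneous_zero _ _ _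
      · rw [← hZ a ha]
        refine IsHomogeneous.prod _ _ _ fun s _ => ?_
        have := (lf_hom (N := N) (π (.inr (.inl (.inl s)))) (π (.inr (.inl (.inr s))))).pow (mult s)
        rwa [one_mul] at this
    · refine IsHomogeneous.sum _ _ _ fun j _ => ?_
      have h1 : (X j.succ.succ - lf (π (.inl (.inl j))) (π (.inl (.inr j))) :
          MvPolynomial (Fin (N + 2)) R).IsHomogeneous 1 := (isHomogeneous_X _ _).sub (lf_hom _ _)
      have h2 := h1.mul (cof_hom d (fun x => π (.inr (.inr x))) a j)
      have h3 : 1 + (d a - 1) = d a := by have := hd a; omega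
      rwa [h3] at h2

end Pool.Agent.Helper15.CC
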